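import Mathlib
import Pool.Agent.H737_BLT.Final

set_option autoImplicit false

/-!
# The nonsymmetric Balian-Low theorem for all symplectic lattices

For every `l ≥ 1`, every symplectic lattice `S` in `ℝ^{2l}`, every `g` in `L²(ℝ^l)` whose Gabor
system over `S` is a Riesz basis and every coordinate `k`:

* for conjugate exponents `1 < p, q < ∞` one of `∫ |x_k|^p |g|²`, `∫ |ξ_k|^q |ĝ|²` is infinite;
* if `g` has compact support then `∫ |ξ_k| |ĝ|²` is infinite;
* if `ĝ` has compact support then `∫ |x_k| |g|²` is infinite.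

Sketch of the proof. The time-frequency shifts along `S` commute, so the Riesz basis identifies
`L²(ℝ^l)` with `L²(𝕋^{2l})`, and there every time-frequency shift `π(z)` is a translation of the
torus followed by multiplication by a bounded function `c_z`. For the modulation `M_h` and the
translation `T_t` in the `k`-th variable the Weyl relation gives
`d_t(θ+a) c_h(θ) = e^{2πiht} c_h(θ+b) d_t(θ)`. Where all four factors are within `1/2` of `1` one
takes arguments; as the four arguments integrate to zero over the torus, the set where some factor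
is not close to `1` has measure at least `h t / 3`. On the other hand its measure is at most a
constant times `‖(M_h - 1)^m g‖² + ‖(T_t - 1)^m g‖²`, because a bounded sequence with small `m`-th
differences has small first differences. With `h^p = t^q = ε` this is `o(ε)` while `h t = ε`.
In the endpoint cases `c_h` tends to `1` uniformly.
-/

namespace Pool.Agent.Results.MP_bb0b0f_an.NonsymBLT

open MeasureTheory SchwartzMap
open scoped ENNReal

/-- `ℝ^l` with its Euclidean structure. -/
abbrev E (l : ℕ) := EuclideanSpace ℝ (Fin l)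

/-- Lebesgue measure on `ℝ^l`. -/
noncomputable def leb (l : ℕ) : Measure (E l) := volume

/-- The Hilbert space `L²(ℝ^l)` of (classes of) complex functions. -/
def L2 (l : ℕ) : Type := Lp ℂ 2 (leb l)

/-- The usual norm of `L²(ℝ^l)`. -/
noncomputable instance instNormed (l : ℕ) : NormedAddCommGroup (L2 l) :=
  Lp.instNormedAddCommGroup (E := ℂ) (p := 2) (μ := leb l)

/-- The usual inner product of `L²(ℝ^l)`. -/
noncomputable instance instInner (l : ℕ) : InnerProductSpace ℂ (L2 l) :=
  MeasureTheory.L2.innerProductSpace (𝕜 := ℂ) (E := ℂ) (μ := leb l)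

/-- A function representing the class `f`. -/
noncomputable def val {l : ℕ} (f : L2 l) : E l → ℂ := AEEqFun.cast f.1

/-- A family in a Hilbert space is a Riesz basis if it is the image of an orthonormal basis under a
bounded invertible operator. -/
def IsRieszBasis {ι H : Type} [NormedAddCommGroup H] [InnerProductSpace ℂ H] (h : ι → H) : Prop :=
  ∃ (b : HilbertBasis ι ℂ H) (T : H ≃L[ℂ] H), ∀ i, h i = T (b i)

/-- The standard symplectic matrix, with blocks `0, I; -I, 0`. -/
def J (l : ℕ) : Matrix (Fin l ⊕ Fin l) (Fin l ⊕ Fin l) ℝ := Matrix.fromBlocks 0 1 (-1) 0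

/-- Phase space `ℝ^{2l}`: a point is a function `z` on `Fin l ⊕ Fin l`; it stands for the pair
`(m, n)` with `m_j = z (inl j)` and `n_j = z (inr j)`. -/
abbrev Phase (l : ℕ) := Fin l ⊕ Fin l → ℝ

/-- The set `S` is a symplectic lattice if `S = M ℤ^{2l}` for a real matrix `M` with
`Mᵀ J M = J`. -/
def IsSymplecticLattice {l : ℕ} (S : Set (Phase l)) : Prop :=
  ∃ M : Matrix (Fin l ⊕ Fin l) (Fin l ⊕ Fin l) ℝ, M.transpose * J l * M = J l ∧
    S = {z | ∃ k : Fin l ⊕ Fin l → ℤ, z = M.mulVec (fun i => (k i : ℝ))}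

/-- The time-frequency shift `g(x - m) e^{2πi n·x}` of `g` by the point `z = (m, n)`. -/
noncomputable def atom {l : ℕ} (g : L2 l) (z : Phase l) (x : E l) : ℂ :=
  val g (x - WithLp.toLp 2 (fun j => z (Sum.inl j))) *
    Complex.exp (2 * (Real.pi : ℂ) * Complex.I * ((∑ j, z (Sum.inr j) * x j : ℝ) : ℂ))

/-- The Gabor system `{g(x - m) e^{2πi n·x}}` indexed by the points `(m, n)` of `S` is a Riesz basis
of `L²(ℝ^l)`. -/
def GaborRieszBasis {l : ℕ} (g : L2 l) (S : Set (Phase l)) : Prop :=
  ∃ h : S → L2 l, (∀ z : S, val (h z) =ᵐ[leb l] atom g z) ∧ IsRieszBasis h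

/-- The Fourier integral `∫ φ(y) e^{-2πi y·x} dy` of a Schwartz function `φ` on `ℝ^l`. -/
noncomputable def fourierInt {l : ℕ} (φ : 𝓢(E l, ℂ)) (x : E l) : ℂ :=
  ∫ y, Complex.exp (-(2 * (Real.pi : ℂ) * Complex.I * ((∑ j, y j * x j : ℝ) : ℂ))) * φ y ∂(leb l)

/-- The element `γ` is the Fourier transform of `g` in `L²(ℝ^l)`: `∫ γ φ = ∫ g φ̂` for every Schwartz
function `φ`. Every `g` in `L²(ℝ^l)` has exactly one Fourier transform. -/
def IsFourierTransform {l : ℕ} (g γ : L2 l) : Prop :=
  ∀ φ : 𝓢(E l, ℂ), ∫ ξ, val γ ξ * φ ξ ∂(leb l) = ∫ x, val g x * fourierInt φ x ∂(leb l)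

/-- The function `f` vanishes almost everywhere outside a compact set. -/
def CompactSupp {l : ℕ} (f : L2 l) : Prop :=
  ∃ C : Set (E l), IsCompact C ∧ ∀ᵐ x ∂(leb l), x ∉ C → val f x = 0

/-- The moment `∫ |x_k|^p |f(x)|² dx`, an extended nonnegative number. -/
noncomputable def moment {l : ℕ} (k : Fin l) (p : ℝ) (f : L2 l) : ℝ≥0∞ :=
  ∫⁻ x, ENNReal.ofReal (|x k| ^ p * ‖val f x‖ ^ 2) ∂(leb l)

/-- The Fourier transform of the definition above is Mathlib's Fourier transform on `L²`. -/
theorem isFourierTransform_iff {l : ℕ} (g γ : L2 l) :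
    IsFourierTransform g γ ↔ γ = Lp.fourierTransformₗᵢ (E l) ℂ g := by
  constructor
  · intro h
    refine Pool.Agent.H737_BLT.fourier_char g γ fun φ => ?_
    refine (h φ).trans ?_
    refine integral_congr_ae (Filter.Eventually.of_forall fun x => ?_)
    exact congrArg (fun c : ℂ => val g x * c) (Pool.Agent.H737_BLT.schwartz_fourier φ x).symm
  · intro h φ
    have h1 := Pool.Agent.H737_BLT.fourier_dual g φ
    subst h
    refine Eq.trans h1 ?_
    refine integral_congr_ae (Filter.Eventually.of_forall fun x => ?_)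
    exact congrArg (fun c : ℂ => val g x * c) (Pool.Agent.H737_BLT.schwartz_fourier φ x)

/-- **Nonsymmetric Balian-Low theorem for symplectic lattices.** -/
theorem result (l : ℕ) (S : Set (Phase l)) (hS : IsSymplecticLattice S) (g ghat : L2 l)
    (hghat : IsFourierTransform g ghat) (hg : GaborRieszBasis g S) (k : Fin l) :
    (∀ p q : ℝ, 1 < p → 1 / p + 1 / q = 1 → moment k p g = ∞ ∨ moment k q ghat = ∞) ∧
    (CompactSupp g → moment k 1 ghat = ∞) ∧
    (CompactSupp ghat → moment k 1 g = ∞) := by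
  rw [isFourierTransform_iff] at hghat
  subst hghat
  obtain ⟨M, hM, hSM⟩ := hS
  obtain ⟨h, hh, b₀, T₀, hb⟩ := hg
  unfold J at hM
  -- `M` is injective
  have hMinj : Function.Injective M.mulVec := by
    have hJJ : (Matrix.fromBlocks 0 1 (-1) 0 : Matrix (Fin l ⊕ Fin l) (Fin l ⊕ Fin l) ℝ) *
        Matrix.fromBlocks 0 1 (-1) 0 = -1 := by
      rw [Matrix.fromBlocks_multiply]
      simp only [mul_zero, zero_add, add_zero, mul_neg, mul_one]
      rw [← Matrix.fromBlocks_one, Matrix.fromBlocks_neg]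
      simp
    have hleft : (-(Matrix.fromBlocks 0 1 (-1) 0 : Matrix (Fin l ⊕ Fin l) (Fin l ⊕ Fin l) ℝ) *
        (M.transpose * Matrix.fromBlocks 0 1 (-1) 0)) * M = 1 := by
      rw [Matrix.mul_assoc, hM, Matrix.neg_mul, hJJ, neg_neg]
    intro v w hvw
    have h1 : ((-(Matrix.fromBlocks 0 1 (-1) 0 : Matrix (Fin l ⊕ Fin l) (Fin l ⊕ Fin l) ℝ) *
        (M.transpose * Matrix.fromBlocks 0 1 (-1) 0)) * M).mulVec v =
        ((-(Matrix.fromBlocks 0 1 (-1) 0 : Matrix (Fin l ⊕ Fin l) (Fin l ⊕ Fin l) ℝ) *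
        (M.transpose * Matrix.fromBlocks 0 1 (-1) 0)) * M).mulVec w := by
      simp only [← Matrix.mulVec_mulVec, hvw]
    rwa [hleft, Matrix.one_mulVec, Matrix.one_mulVec] at h1
  let F : (Fin l ⊕ Fin l → ℤ) → S := fun k => ⟨M.mulVec (fun i => (k i : ℝ)), by
    rw [hSM]; exact ⟨k, rfl⟩⟩
  have hFb : Function.Bijective F := by
    constructor
    · intro k k' hkk
      have h1 : M.mulVec (fun i => (k i : ℝ)) = M.mulVec (fun i => (k' i : ℝ)) :=
        congrArg Subtype.val hkk
      have h2 := hMinj h1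
      funext i
      have := congrFun h2 i
      exact_mod_cast this
    · rintro ⟨z, hz⟩
      have hz' := hz
      rw [hSM] at hz'
      obtain ⟨k, hk⟩ := hz'
      exact ⟨k, Subtype.ext hk.symm⟩
  have hT : ∀ k, T₀ (b₀ (Equiv.ofBijective F hFb k)) =
      Pool.Agent.H737_BLT.W (Pool.Agent.H737_BLT.fstE (Pool.Agent.H737_BLT.pt M k))
        (Pool.Agent.H737_BLT.sndE (Pool.Agent.H737_BLT.pt M k)) g := by
    intro k
    rw [← hb]
    refine Lp.ext (E := ℂ) (p := 2) (μ := leb l) ?_
    refine (hh _).trans ?_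
    refine Filter.EventuallyEq.trans ?_ (Pool.Agent.H737_BLT.coeFn_W _ _ g).symm
    filter_upwards with x
    rw [atom, mul_comm]
    congr 1
    unfold Pool.Agent.H737_BLT.chr
    congr 3
    simp only [PiLp.inner_apply]
    refine Finset.sum_congr rfl fun j _ => ?_
    simp [Pool.Agent.H737_BLT.sndE, Pool.Agent.H737_BLT.pt, F, mul_comm]
  have hmain := Pool.Agent.H737_BLT.main (M := M) hM g (Equiv.ofBijective F hFb) b₀ T₀ hT k
  refine ⟨fun p q hp hpq => ?_, fun hc => ?_, fun hc => ?_⟩
  rotate_left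
  · have := hmain.2.1 hc
    rw [moment]
    simp only [Real.rpow_one]
    exact this
  · have := hmain.2.2 hc
    rw [moment]
    simp only [Real.rpow_one]
    exact this
  have hq : 1 < q := by
    have h1 : 1 / p < 1 := by
      rw [div_lt_one (by linarith)]
      exact hp
    have h2 : 0 < 1 / p := by positivity
    have h3 : 0 < 1 / q := by linarith
    have h4 : 0 < q := by
      by_contra hcon
      rw [not_lt] at hcon
      have := div_nonpos_of_nonneg_of_nonpos (zero_le_one : (0 : ℝ) ≤ 1) hcon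
      linarith
    have h5 : 1 / q < 1 := by linarith
    rwa [div_lt_one h4] at h5
  exact hmain.1 p q hp hq hpq

end Pool.Agent.Results.MP_bb0b0f_an.NonsymBLT
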